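import Pool.Agent.Lib.MP_524519_ag.DU5.LNK.Iface

/-! DU5, chapter LNK, module LNB: the length is bounded by the orders at the points. -/

set_option autoImplicit false

open Polynomial

namespace Pool.Agent.DU5.LNK.LNB

variable {K : Type} [Field K]

/-- The coefficients with index congruent to `r` modulo `n`. -/
noncomputable def sec (n r : ℕ) : PowerSeries K →ₗ[K] PowerSeries K where
  toFun f := PowerSeries.mk fun m => PowerSeries.coeff (n * m + r) f
  map_add' f g := by ext m; simp
  map_smul' c f := by ext m; simp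

lemma coeff_sec (n r m : ℕ) (f : PowerSeries K) :
    PowerSeries.coeff m (sec n r f) = PowerSeries.coeff (n * m + r) f := by
  simp [sec]

lemma sec_ex_mul (n : ℕ) (hn : n ≠ 0) (r : ℕ) (hr : r < n) (a b : PowerSeries K) :
    sec n r (PC.ex K n hn a * b) = a * sec n r b := by
  ext m
  have hn' : 0 < n := Nat.pos_of_ne_zero hn
  rw [coeff_sec, PowerSeries.coeff_mul, PowerSeries.coeff_mul]
  symm
  refine Finset.sum_of_injOn (fun p => (n * p.1, n * p.2 + r)) ?_ ?_ ?_ ?_
  · rintro ⟨a1, a2⟩ - ⟨b1, b2⟩ - h
    simp only [Prod.mk.injEq] at h ⊢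
    refine ⟨Nat.eq_of_mul_eq_mul_left hn' h.1, Nat.eq_of_mul_eq_mul_left hn' (by omega)⟩
  · rintro ⟨a1, a2⟩ h
    simp only [Finset.mem_coe, Finset.HasAntidiagonal.mem_antidiagonal] at h ⊢
    rw [← h]; ring
  · rintro ⟨u, v⟩ huv h
    rw [Finset.HasAntidiagonal.mem_antidiagonal] at huv
    have hnd : ¬ n ∣ u := by
      rintro ⟨u', rfl⟩
      apply h
      have hu : u' ≤ m := by
        by_contra hlt
        have h1 : m + 1 ≤ u' := by omega
        have h2 : n * (m + 1) ≤ n * u' := Nat.mul_le_mul_left n h1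
        have h3 : n * (m + 1) = n * m + n := by ring
        simp only at huv
        omega
      refine ⟨(u', m - u'), ?_, ?_⟩
      · simp only [Finset.mem_coe, Finset.HasAntidiagonal.mem_antidiagonal]
        omega
      · simp only [Prod.mk.injEq, true_and]
        obtain ⟨w, rfl⟩ := Nat.exists_eq_add_of_le hu
        have h3 : n * (u' + w) = n * u' + n * w := by ring
        simp only at huv
        rw [Nat.add_sub_cancel_left]
        omega
    have : PowerSeries.coeff u (PC.ex K n hn a) = 0 := by
      show PowerSeries.coeff u (PowerSeries.expand n hn a) = 0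
      exact PowerSeries.coeff_expand_of_not_dvd n hn a hnd
    simp only
    rw [this, zero_mul]
  · rintro ⟨a1, a2⟩ -
    simp only
    rw [coeff_sec]
    congr 1
    show _ = PowerSeries.coeff (n * a1) (PowerSeries.expand n hn a)
    rw [PowerSeries.coeff_expand_mul]

/-- The component with index `r` of a polynomial. -/
noncomputable def comp (n r : ℕ) : (PowerSeries K)[X] →ₗ[K] (PowerSeries K)[X] :=
  Polynomial.lsum fun j => ((Polynomial.monomial j :
    PowerSeries K →ₗ[PowerSeries K] (PowerSeries K)[X]).restrictScalars K).comp (sec n r)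

lemma comp_monomial (n r j : ℕ) (b : PowerSeries K) :
    comp n r (monomial j b) = monomial j (sec n r b) := by
  simp [comp, Polynomial.lsum, Polynomial.sum_monomial_index]

lemma comp_map_mul (n : ℕ) (hn : n ≠ 0) (r : ℕ) (hr : r < n) (a g : (PowerSeries K)[X]) :
    comp n r (a.map (PC.ex K n hn) * g) = a * comp n r g := by
  induction a using Polynomial.induction_on' with
  | add p q hp hq => rw [Polynomial.map_add, add_mul, map_add, hp, hq, add_mul]
  | monomial i a =>
    induction g using Polynomial.induction_on' with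
    | add p q hp hq => rw [mul_add, map_add, hp, hq, map_add, mul_add]
    | monomial j b =>
      rw [Polynomial.map_monomial, monomial_mul_monomial, comp_monomial, comp_monomial,
        monomial_mul_monomial, sec_ex_mul n hn r hr]

lemma sec_X_pow (n r r' : ℕ) (hr : r < n) (hr' : r' < n) :
    sec n r (PowerSeries.X ^ r' : PowerSeries K) = if r = r' then 1 else 0 := by
  ext m
  rw [coeff_sec, PowerSeries.coeff_X_pow]
  by_cases h : r = r'
  · subst h
    rw [if_pos rfl, PowerSeries.coeff_one]
    by_cases hm : m = 0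
    · simp [hm]
    · have : n ≤ n * m := Nat.le_mul_of_pos_right n (Nat.pos_of_ne_zero hm)
      rw [if_neg (by omega), if_neg hm]
  · rw [if_neg h, map_zero, if_neg]
    intro h1
    rcases Nat.eq_zero_or_pos m with hm | hm
    · subst hm; omega
    · have : n ≤ n * m := Nat.le_mul_of_pos_right n hm
      omega

/-- Length of a quotient and surjections. -/
lemma len_le_of_surj {R M : Type} [CommRing R] [Algebra K R] [AddCommGroup M] [Module K M]
    (I : Ideal R) (f : R →ₗ[K] M) (hf : Function.Surjective f) (h : ∀ x ∈ I, f x = 0) :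
    Module.length K M ≤ Module.length K (R ⧸ I) := by
  have h' : I.restrictScalars K ≤ LinearMap.ker f := fun x hx => h x hx
  refine Module.length_le_of_surjective
    (((I.restrictScalars K).liftQ f h').comp
      (Submodule.Quotient.restrictScalarsEquiv K I).symm.toLinearMap) ?_
  intro y
  obtain ⟨x, rfl⟩ := hf y
  refine ⟨Submodule.Quotient.mk x, ?_⟩
  rfl

/-- Step (i). -/
lemma step1 (n : ℕ) (hn : n ≠ 0) (P θ : (PowerSeries K)[X]) :
    (n : ℕ∞) * Module.length K ((PowerSeries K)[X] ⧸ Ideal.span {P, θ}) ≤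
      Module.length K ((PowerSeries K)[X] ⧸
        Ideal.span {P.map (PC.ex K n hn), θ.map (PC.ex K n hn)}) := by
  set J := Ideal.span {P, θ} with hJ
  have e : (n : ℕ∞) * Module.length K ((PowerSeries K)[X] ⧸ J) =
      Module.length K (Fin n → ((PowerSeries K)[X] ⧸ J)) := by
    rw [Module.length_pi]
    simp
  rw [e]
  refine len_le_of_surj _ (LinearMap.pi fun r : Fin n =>
    (Ideal.Quotient.mkₐ K J).toLinearMap.comp (comp n r)) ?_ ?_
  · intro c
    choose g hg using fun r => Ideal.Quotient.mk_surjective (c r)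
    refine ⟨∑ r : Fin n, (g r).map (PC.ex K n hn) * C (PowerSeries.X ^ (r : ℕ)), ?_⟩
    funext r
    rw [LinearMap.pi_apply, LinearMap.comp_apply, map_sum]
    have : ∑ x : Fin n, comp n r ((g x).map (PC.ex K n hn) * C (PowerSeries.X ^ (x : ℕ))) =
        g r := by
      have h1 : ∀ x : Fin n, comp n r ((g x).map (PC.ex K n hn) * C (PowerSeries.X ^ (x : ℕ))) =
          if r = x then g x else 0 := by
        intro x
        rw [comp_map_mul n hn r r.2, ← Polynomial.monomial_zero_left, comp_monomial,
          sec_X_pow n r x r.2 x.2]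
        by_cases hx : r = x
        · subst hx; simp
        · have : (r : ℕ) ≠ x := fun h => hx (Fin.ext h)
          simp [hx, this]
      rw [Finset.sum_congr rfl (fun x _ => h1 x)]
      simp
    rw [this]
    exact hg r
  · intro x hx
    obtain ⟨a, b, rfl⟩ := Ideal.mem_span_pair.1 hx
    funext r
    rw [LinearMap.pi_apply, LinearMap.comp_apply, map_add, mul_comm a, mul_comm b,
      comp_map_mul n hn r r.2, comp_map_mul n hn r r.2]
    show Ideal.Quotient.mk J _ = 0
    rw [Ideal.Quotient.eq_zero_iff_mem]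
    exact Ideal.mem_span_pair.2 ⟨comp n r a, comp n r b, by ring⟩

/-- Step (ii). -/
lemma step2 {R : Type} [CommRing R] [Algebra K R] (I : Ideal R) (a b : R) :
    Module.length K (R ⧸ (I ⊔ Ideal.span {a * b})) ≤
      Module.length K (R ⧸ (I ⊔ Ideal.span {a})) + Module.length K (R ⧸ (I ⊔ Ideal.span {b})) := by
  set J := I ⊔ Ideal.span {a * b} with hJ
  set f : R →ₗ[K] R ⧸ J := (Ideal.Quotient.mkₐ K J).toLinearMap.comp (LinearMap.mulLeft K a)
    with hf
  have hfx : ∀ x, f x = Ideal.Quotient.mk J (a * x) := fun x => rfl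
  set N := LinearMap.range f with hN
  have h1 : Module.length K N ≤ Module.length K (R ⧸ (I ⊔ Ideal.span {b})) := by
    refine len_le_of_surj _ f.rangeRestrict f.surjective_rangeRestrict ?_
    intro x hx
    apply Subtype.ext
    show f x = 0
    rw [hfx, Ideal.Quotient.eq_zero_iff_mem]
    obtain ⟨i, hi, y, hy, rfl⟩ := Submodule.mem_sup.1 hx
    obtain ⟨z, rfl⟩ := Ideal.mem_span_singleton'.1 hy
    rw [mul_add]
    refine Submodule.add_mem_sup (I.mul_mem_left a hi) ?_
    exact Ideal.mem_span_singleton'.2 ⟨z, by ring⟩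
  have h2 : Module.length K ((R ⧸ J) ⧸ N) ≤ Module.length K (R ⧸ (I ⊔ Ideal.span {a})) := by
    refine len_le_of_surj _ (N.mkQ.comp (Ideal.Quotient.mkₐ K J).toLinearMap) ?_ ?_
    · intro y
      obtain ⟨z, rfl⟩ := N.mkQ_surjective y
      obtain ⟨x, rfl⟩ := Ideal.Quotient.mk_surjective z
      exact ⟨x, rfl⟩
    · intro x hx
      obtain ⟨i, hi, y, hy, rfl⟩ := Submodule.mem_sup.1 hx
      obtain ⟨z, rfl⟩ := Ideal.mem_span_singleton'.1 hy
      rw [LinearMap.comp_apply, Submodule.mkQ_apply, Submodule.Quotient.mk_eq_zero]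
      refine ⟨z, ?_⟩
      rw [hfx]
      show _ = Ideal.Quotient.mk J (i + z * a)
      rw [map_add, Ideal.Quotient.eq_zero_iff_mem.2 (Submodule.mem_sup_left hi : i ∈ J), zero_add,
        mul_comm]
  have h3 : Module.length K (R ⧸ J) = Module.length K N + Module.length K ((R ⧸ J) ⧸ N) :=
    Module.length_eq_add_of_exact N.subtype N.mkQ N.subtype_injective N.mkQ_surjective
      (LinearMap.exact_subtype_mkQ N)
  rw [h3, add_comm]
  exact add_le_add h2 h1

lemma step2prod {R ι : Type} [CommRing R] [Algebra K R] (I : Ideal R) (s : Finset ι)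
    (a : ι → R) :
    Module.length K (R ⧸ (I ⊔ Ideal.span {∏ i ∈ s, a i})) ≤
      ∑ i ∈ s, Module.length K (R ⧸ (I ⊔ Ideal.span {a i})) := by
  classical
  induction s using Finset.induction_on with
  | empty =>
    have : I ⊔ Ideal.span {∏ i ∈ (∅ : Finset ι), a i} = ⊤ := by
      rw [Finset.prod_empty, Ideal.span_singleton_one, sup_top_eq]
    rw [this, Finset.sum_empty]
    have : Subsingleton (R ⧸ (⊤ : Ideal R)) := Ideal.Quotient.subsingleton_iff.2 rfl
    rw [Module.length_eq_zero]
  | insert i s hi ih =>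
    rw [Finset.prod_insert hi, Finset.sum_insert hi]
    exact le_trans (step2 I _ _) (add_le_add le_rfl ih)

/-- Step (iii). -/
lemma step3 (g : (PowerSeries K)[X]) (η : PowerSeries K) :
    Module.length K ((PowerSeries K)[X] ⧸ (Ideal.span {g} ⊔ Ideal.span {X - C η})) ≤
      (g.eval η).order := by
  set J := Ideal.span {g} ⊔ Ideal.span {X - C η} with hJ
  have hmod : ∀ h : (PowerSeries K)[X], Ideal.Quotient.mk J h =
      Ideal.Quotient.mk J (C (h.eval η)) := by
    intro h
    rw [Ideal.Quotient.eq]
    refine Submodule.mem_sup_right ?_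
    rw [Ideal.mem_span_singleton]
    exact Polynomial.X_sub_C_dvd_sub_C_eval
  by_cases h0 : g.eval η = 0
  · rw [h0, PowerSeries.order_zero]; exact le_top
  obtain ⟨e, he⟩ : ∃ e : ℕ, (g.eval η).order = e :=
    ENat.ne_top_iff_exists.1 (fun h => h0 (PowerSeries.order_eq_top.1 h)) |>.imp
      (fun _ h => h.symm)
  rw [he]
  have hXe : Ideal.Quotient.mk J (C (PowerSeries.X ^ e)) = 0 := by
    have hfac : ∃ u : PowerSeries K, IsUnit u ∧ g.eval η = PowerSeries.X ^ e * u := by
      refine ⟨PowerSeries.divXPowOrder (g.eval η), ?_, ?_⟩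
      · rw [PowerSeries.isUnit_iff_constantCoeff, isUnit_iff_ne_zero]
        rw [PowerSeries.constantCoeff_divXPowOrder]
        exact PowerSeries.coeff_order h0
      · have := PowerSeries.X_pow_order_mul_divXPowOrder (f := g.eval η)
        rw [he] at this
        simpa using this.symm
    obtain ⟨u, hu, hgu⟩ := hfac
    have h1 : Ideal.Quotient.mk J (C (g.eval η)) = 0 := by
      rw [← hmod, Ideal.Quotient.eq_zero_iff_mem]
      exact Submodule.mem_sup_left (Ideal.mem_span_singleton_self g)
    obtain ⟨v, hv⟩ := hu.exists_right_inv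
    have h2 : (C (PowerSeries.X ^ e) : (PowerSeries K)[X]) = C (g.eval η) * C v := by
      rw [← C_mul, hgu, mul_assoc, hv, mul_one]
    rw [h2, map_mul, h1, zero_mul]
  have hlen : Module.length K (Fin e → K) = e := by
    rw [Module.length_pi]
    simp [Module.length_eq_one]
  rw [← hlen]
  refine Module.length_le_of_surjective (Fintype.linearCombination K
    (fun i : Fin e => Ideal.Quotient.mk J (C (PowerSeries.X ^ (i : ℕ))))) ?_
  intro y
  obtain ⟨h, rfl⟩ := Ideal.Quotient.mk_surjective y
  rw [hmod]
  set b := h.eval η with hb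
  refine ⟨fun i => PowerSeries.coeff (i : ℕ) b, ?_⟩
  rw [Fintype.linearCombination_apply]
  have hsplit : b = (∑ i : Fin e, PowerSeries.coeff (i : ℕ) b • (PowerSeries.X ^ (i : ℕ)
      : PowerSeries K)) + PowerSeries.X ^ e * PowerSeries.mk (fun m => PowerSeries.coeff (m + e) b) := by
    ext m
    rw [map_add, map_sum, PowerSeries.coeff_X_pow_mul', Fin.sum_univ_eq_sum_range
      (fun i => PowerSeries.coeff m (PowerSeries.coeff i b • (PowerSeries.X ^ i : PowerSeries K)))]
    simp only [PowerSeries.coeff_smul, PowerSeries.coeff_X_pow, PowerSeries.coeff_mk, smul_eq_mul,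
      mul_ite, mul_one, mul_zero]
    rw [Finset.sum_ite_eq]
    by_cases hm : m < e
    · rw [if_pos (Finset.mem_range.2 hm), if_neg (by omega), add_zero]
    · rw [if_neg (by simpa using hm), if_pos (by omega), zero_add, Nat.sub_add_cancel (by omega)]
  conv_rhs => rw [hsplit]
  rw [C_add, C_mul, map_add, map_mul, hXe, zero_mul, add_zero, map_sum, map_sum]
  refine Finset.sum_congr rfl fun i _ => ?_
  show _ = Ideal.Quotient.mk J (C (_ • _))
  rw [← Polynomial.smul_C]
  rfl

end Pool.Agent.DU5.LNK.LNB

namespace Pool.Agent.DU5.LNK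

/-- Module LNB. -/
theorem lnb : LnbStatement := by
  intro K _ P d hP hd n hn η hη θ
  refine le_trans (LNB.step1 n hn P θ) ?_
  rw [Ideal.span_insert, sup_comm, hη]
  refine le_trans (LNB.step2prod _ Finset.univ _) ?_
  exact Finset.sum_le_sum fun i _ => LNB.step3 _ _

end Pool.Agent.DU5.LNK
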